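import Pool.Agent.Helper7.EC_E.GoalsM

set_option autoImplicit false

open MeasureTheory Filter Topology Set

namespace EC237.ZE.PkMS1

/-- the term -/
noncomputable def f (p q : ℕ) : ℝ := 1 / (((p:ℝ) + 1) * ((q:ℝ) + 1))

/-- sum over `P + Q < N` -/
noncomputable def A (n : ℕ) : ℝ :=
  ∑ p ∈ Finset.range n, ∑ q ∈ Finset.range n, if p + q + 1 < n then f p q else 0

/-- sum over `P + Q = N` -/
noncomputable def B (n : ℕ) : ℝ :=
  ∑ p ∈ Finset.range n, ∑ q ∈ Finset.range n, if p + q + 1 = n then f p q else 0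

lemma B_eq (n : ℕ) : B n = 2 * Hs 1 n / ((n:ℝ) + 1) := by
  have h1 : ∀ p ∈ Finset.range n, (∑ q ∈ Finset.range n, if p + q + 1 = n then f p q else 0) =
      (1 / ((p:ℝ) + 1) + 1 / (((n - 1 - p : ℕ):ℝ) + 1)) / ((n:ℝ) + 1) := by
    intro p hp
    have hp' := Finset.mem_range.mp hp
    rw [Finset.sum_eq_single (n - 1 - p)]
    · rw [if_pos (by omega)]
      unfold f
      have e : ((n - 1 - p : ℕ):ℝ) = (n:ℝ) - 1 - p := by
        rw [Nat.cast_sub (by omega), Nat.cast_sub (by omega)]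
        norm_num
      have hpn : (p:ℝ) + 1 ≤ n := by exact_mod_cast hp'
      have h2 : (0:ℝ) < (n:ℝ) - 1 - p + 1 := by linarith
      have h3 : (0:ℝ) < (p:ℝ) + 1 := by positivity
      have h4 : (0:ℝ) < (n:ℝ) + 1 := by positivity
      rw [e]
      field_simp
      ring
    · intro q hq hqn
      rw [if_neg]
      omega
    · intro h
      exact absurd (Finset.mem_range.mpr (by omega)) h
  unfold B
  rw [Finset.sum_congr rfl h1, ← Finset.sum_div, Finset.sum_add_distrib]
  have h5 : ∑ p ∈ Finset.range n, 1 / (((n - 1 - p : ℕ):ℝ) + 1) =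
      ∑ p ∈ Finset.range n, 1 / ((p:ℝ) + 1) :=
    Finset.sum_range_reflect (fun p => 1 / ((p:ℝ) + 1)) n
  rw [h5]
  unfold Hs
  simp only [pow_one]
  ring

lemma A_succ (n : ℕ) : A (n + 1) = A n + B n := by
  unfold A B
  rw [Finset.sum_range_succ]
  have h1 : ∑ q ∈ Finset.range (n + 1), (if n + q + 1 < n + 1 then f n q else 0) = 0 := by
    refine Finset.sum_eq_zero fun q _ => ?_
    rw [if_neg (by omega)]
  rw [h1, add_zero, ← Finset.sum_add_distrib]
  refine Finset.sum_congr rfl fun p hp => ?_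
  rw [Finset.sum_range_succ, if_neg (by omega), add_zero, ← Finset.sum_add_distrib]
  refine Finset.sum_congr rfl fun q hq => ?_
  by_cases h2 : p + q + 1 < n
  · rw [if_pos (by omega), if_pos h2, if_neg (by omega), add_zero]
  · by_cases h3 : p + q + 1 = n
    · rw [if_pos (by omega), if_neg h2, if_pos h3, zero_add]
    · rw [if_neg (by omega), if_neg h2, if_neg h3, add_zero]

lemma A_eq (n : ℕ) : A n = Hs 1 n ^ 2 - Hs 2 n := by
  induction n with
  | zero => simp [A, Hs]
  | succ n ih =>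
    rw [A_succ, ih, B_eq]
    have e1 : Hs 1 (n + 1) = Hs 1 n + 1 / ((n:ℝ) + 1) := by
      unfold Hs; rw [Finset.sum_range_succ, pow_one]
    have e2 : Hs 2 (n + 1) = Hs 2 n + 1 / ((n:ℝ) + 1) ^ 2 := by
      unfold Hs; rw [Finset.sum_range_succ]
    rw [e1, e2]
    have h4 : (0:ℝ) < (n:ℝ) + 1 := by positivity
    field_simp
    ring

theorem thm : G_MS1 := by
  intro n
  have h4 : (0:ℝ) < (n:ℝ) + 1 := by positivity
  -- inner block
  have hin : ∑ p ∈ Finset.range n, ∑ q ∈ Finset.range n,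
      wt n p q / (((p:ℝ) + 1) ^ 1 * ((q:ℝ) + 1) ^ 1) = 2 * Hs 1 n ^ 2 - 2 * A n - B n := by
    have e1 : Hs 1 n ^ 2 = ∑ p ∈ Finset.range n, ∑ q ∈ Finset.range n, f p q := by
      unfold Hs f
      rw [sq, Finset.sum_mul_sum]
      refine Finset.sum_congr rfl fun p _ => Finset.sum_congr rfl fun q _ => ?_
      rw [pow_one, pow_one]
      field_simp
    rw [e1]
    unfold A B
    rw [Finset.mul_sum, Finset.mul_sum, ← Finset.sum_sub_distrib, ← Finset.sum_sub_distrib]
    refine Finset.sum_congr rfl fun p hp => ?_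
    rw [Finset.mul_sum, Finset.mul_sum, ← Finset.sum_sub_distrib, ← Finset.sum_sub_distrib]
    refine Finset.sum_congr rfl fun q hq => ?_
    have hp' := Finset.mem_range.mp hp
    have hq' := Finset.mem_range.mp hq
    unfold wt f
    rw [if_neg (by omega : ¬ p = n), if_neg (by omega : ¬ q = n), pow_one, pow_one]
    by_cases h2 : p + q + 1 < n
    · rw [if_pos h2, if_pos h2, if_neg (by omega)]
      ring
    · by_cases h3 : p + q + 1 = n
      · rw [if_neg h2, if_pos h3, if_neg h2, if_pos h3]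
        ring
      · rw [if_neg h2, if_neg h3, if_neg h2, if_neg h3]
        ring
  have hrow : ∑ q ∈ Finset.range n, wt n n q / (((n:ℝ) + 1) ^ 1 * ((q:ℝ) + 1) ^ 1) =
      Hs 1 n / ((n:ℝ) + 1) := by
    unfold Hs
    rw [Finset.sum_div]
    refine Finset.sum_congr rfl fun q hq => ?_
    have hq' := Finset.mem_range.mp hq
    unfold wt
    rw [if_pos rfl, if_neg (by omega : ¬ q = n), if_neg (by omega), if_neg (by omega), pow_one,
      pow_one]
    field_simp
  have hcol : ∑ p ∈ Finset.range n, wt n p n / (((p:ℝ) + 1) ^ 1 * ((n:ℝ) + 1) ^ 1) =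
      Hs 1 n / ((n:ℝ) + 1) := by
    unfold Hs
    rw [Finset.sum_div]
    refine Finset.sum_congr rfl fun p hp => ?_
    have hp' := Finset.mem_range.mp hp
    unfold wt
    rw [if_pos rfl, if_neg (by omega : ¬ p = n), if_neg (by omega), if_neg (by omega), pow_one,
      pow_one]
    field_simp
  have hcor : wt n n n / (((n:ℝ) + 1) ^ 1 * ((n:ℝ) + 1) ^ 1) = 1 / (2 * ((n:ℝ) + 1) ^ 2) := by
    unfold wt
    rw [if_pos rfl, if_neg (by omega), if_neg (by omega), pow_one]
    field_simp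
  unfold Sab
  rw [Finset.sum_range_succ]
  have e3 : ∑ p ∈ Finset.range n, ∑ q ∈ Finset.range (n + 1),
      wt n p q / (((p:ℝ) + 1) ^ 1 * ((q:ℝ) + 1) ^ 1) =
      (2 * Hs 1 n ^ 2 - 2 * A n - B n) + Hs 1 n / ((n:ℝ) + 1) := by
    rw [← hin, ← hcol, ← Finset.sum_add_distrib]
    refine Finset.sum_congr rfl fun p _ => ?_
    rw [Finset.sum_range_succ]
  rw [e3, Finset.sum_range_succ, hrow, hcor, A_eq, B_eq]
  ring

end EC237.ZE.PkMS1
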