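import Pool.Agent.Helper7.EC_E.GoalsS

set_option autoImplicit false

open MeasureTheory Filter Topology Set Complex

namespace EC237.ZE.PkST

/-- the integrand on the line `Im = s` -/
noncomputable def GG (F : ℂ → ℂ) (ξ : ℝ) (t : ℂ) : ℂ := cexp (-(I * ξ * t)) * F t

lemma norm_exp (ξ : ℝ) (x y : ℝ) : ‖cexp (-(I * ξ * ((x:ℂ) + y * I)))‖ = Real.exp (ξ * y) := by
  rw [Complex.norm_exp]
  congr 1
  simp

lemma mem_strip {s : ℝ} (hs : |s| ≤ 1 / 2) (x : ℝ) : ((x:ℂ) + s * I) ∈ {t : ℂ | |t.im| < 1} := by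
  have : ((x:ℂ) + s * I).im = s := by simp
  change |((x:ℂ) + s * I).im| < 1
  rw [this]
  linarith

lemma bound_pt {F : ℂ → ℂ} {M : ℝ}
    (hb : ∀ t : ℂ, |t.im| ≤ 1 / 2 → ‖F t‖ ≤ M / (1 + t.re ^ 2)) {ξ x y : ℝ} (hy : |y| ≤ 1 / 2) :
    ‖GG F ξ ((x:ℂ) + y * I)‖ ≤ Real.exp (ξ * y) * (M / (1 + x ^ 2)) := by
  unfold GG
  rw [norm_mul, norm_exp]
  have h1 := hb ((x:ℂ) + y * I) (by simpa using hy)
  have h2 : ((x:ℂ) + y * I).re = x := by simp
  rw [h2] at h1
  exact mul_le_mul_of_nonneg_left h1 (Real.exp_pos _).le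

lemma integrable_line {F : ℂ → ℂ} {M : ℝ} (hF : DifferentiableOn ℂ F {t : ℂ | |t.im| < 1})
    (hb : ∀ t : ℂ, |t.im| ≤ 1 / 2 → ‖F t‖ ≤ M / (1 + t.re ^ 2)) (ξ : ℝ) {s : ℝ}
    (hs : |s| ≤ 1 / 2) : Integrable fun x : ℝ => GG F ξ ((x:ℂ) + s * I) := by
  have hc : Continuous fun x : ℝ => GG F ξ ((x:ℂ) + s * I) := by
    unfold GG
    refine Continuous.mul (by fun_prop) ?_
    exact hF.continuousOn.comp_continuous (by fun_prop) (mem_strip hs)
  have hg : Integrable fun x : ℝ => Real.exp (ξ * s) * M * (1 + x ^ 2)⁻¹ :=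
    integrable_inv_one_add_sq.const_mul _
  refine hg.mono' hc.aestronglyMeasurable (Eventually.of_forall fun x => ?_)
  refine (bound_pt hb hs).trans (le_of_eq ?_)
  rw [div_eq_mul_inv]
  ring

lemma shift {F : ℂ → ℂ} {M : ℝ} (hM : 0 ≤ M) (hF : DifferentiableOn ℂ F {t : ℂ | |t.im| < 1})
    (hb : ∀ t : ℂ, |t.im| ≤ 1 / 2 → ‖F t‖ ≤ M / (1 + t.re ^ 2)) (ξ : ℝ) {s : ℝ}
    (hs : |s| ≤ 1 / 2) :
    ∫ x : ℝ, GG F ξ ((x:ℂ) + (0:ℝ) * I) = ∫ x : ℝ, GG F ξ ((x:ℂ) + s * I) := by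
  have h0 := integrable_line hF hb ξ (s := 0) (by norm_num)
  have h1 := integrable_line hF hb ξ hs
  have t0 : Tendsto (fun R : ℝ => ∫ x in (-R)..R, GG F ξ ((x:ℂ) + (0:ℝ) * I)) atTop
      (𝓝 (∫ x : ℝ, GG F ξ ((x:ℂ) + (0:ℝ) * I))) :=
    intervalIntegral_tendsto_integral h0 tendsto_neg_atTop_atBot tendsto_id
  have t1 : Tendsto (fun R : ℝ => ∫ x in (-R)..R, GG F ξ ((x:ℂ) + s * I)) atTop
      (𝓝 (∫ x : ℝ, GG F ξ ((x:ℂ) + s * I))) :=
    intervalIntegral_tendsto_integral h1 tendsto_neg_atTop_atBot tendsto_id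
  have hrect : ∀ R : ℝ, (∫ x in (-R)..R, GG F ξ ((x:ℂ) + (0:ℝ) * I)) -
      (∫ x in (-R)..R, GG F ξ ((x:ℂ) + s * I)) =
      I • (∫ y in (0:ℝ)..s, GG F ξ (((-R:ℝ):ℂ) + y * I)) -
      I • (∫ y in (0:ℝ)..s, GG F ξ ((R:ℂ) + y * I)) := by
    intro R
    have hd : DifferentiableOn ℂ (GG F ξ) {t : ℂ | |t.im| < 1} := by
      unfold GG
      refine DifferentiableOn.mul ?_ hF
      fun_prop
    have h := Complex.integral_boundary_rect_eq_zero_of_differentiableOn (GG F ξ)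
      (((-R:ℝ):ℂ)) ((R:ℂ) + s * I) (hd.mono ?_)
    · have e1 : (((-R:ℝ):ℂ)).re = -R := Complex.ofReal_re _
      have e2 : (((-R:ℝ):ℂ)).im = 0 := Complex.ofReal_im _
      have e3 : ((R:ℂ) + s * I).re = R := by simp
      have e4 : ((R:ℂ) + s * I).im = s := by simp
      rw [e1, e2, e3, e4] at h
      linear_combination h
    · intro t ht
      rw [Complex.mem_reProdIm] at ht
      have h4 := ht.2
      have e2 : (((-R:ℝ):ℂ)).im = 0 := Complex.ofReal_im _
      have e4 : ((R:ℂ) + s * I).im = s := by simp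
      rw [e2, e4] at h4
      change |t.im| < 1
      have h5 : |t.im - 0| ≤ |s - 0| := Set.abs_sub_left_of_mem_uIcc h4
      simp only [sub_zero] at h5
      linarith
  have hvert : ∀ R y : ℝ, y ∈ Set.uIoc 0 s →
      ‖GG F ξ ((R:ℂ) + y * I)‖ ≤ Real.exp |ξ| * (M / (1 + R ^ 2)) := by
    intro R y hy
    have hy1 : |y - 0| ≤ |s - 0| := Set.abs_sub_left_of_mem_uIcc (Set.uIoc_subset_uIcc hy)
    simp only [sub_zero] at hy1
    have hy2 : |y| ≤ 1 / 2 := hy1.trans hs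
    refine (bound_pt hb hy2).trans ?_
    have h6 : ξ * y ≤ |ξ| := by
      calc ξ * y ≤ |ξ * y| := le_abs_self _
        _ = |ξ| * |y| := abs_mul _ _
        _ ≤ |ξ| * 1 := by
            refine mul_le_mul_of_nonneg_left ?_ (abs_nonneg _)
            linarith
        _ = |ξ| := mul_one _
    have h7 : 0 ≤ M / (1 + R ^ 2) := by positivity
    exact mul_le_mul_of_nonneg_right (Real.exp_le_exp.mpr h6) h7
  have hv1 : ∀ R : ℝ, ‖∫ y in (0:ℝ)..s, GG F ξ ((R:ℂ) + y * I)‖ ≤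
      Real.exp |ξ| * (M / (1 + R ^ 2)) * |s - 0| := fun R =>
    intervalIntegral.norm_integral_le_of_norm_le_const (hvert R)
  have hlim0 : Tendsto (fun R : ℝ => Real.exp |ξ| * (M / (1 + R ^ 2)) * |s - 0|) atTop (𝓝 0) := by
    have h8 : Tendsto (fun R : ℝ => 1 + R ^ 2) atTop atTop :=
      tendsto_atTop_add_const_left _ _ (tendsto_pow_atTop (by norm_num))
    have h9 : Tendsto (fun R : ℝ => M / (1 + R ^ 2)) atTop (𝓝 0) := h8.const_div_atTop M
    have h10 := (h9.const_mul (Real.exp |ξ|)).mul_const |s - 0|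
    simpa using h10
  have hz : Tendsto (fun R : ℝ => (∫ x in (-R)..R, GG F ξ ((x:ℂ) + (0:ℝ) * I)) -
      (∫ x in (-R)..R, GG F ξ ((x:ℂ) + s * I))) atTop (𝓝 0) := by
    rw [tendsto_zero_iff_norm_tendsto_zero]
    have h11 : Tendsto (fun R : ℝ => Real.exp |ξ| * (M / (1 + R ^ 2)) * |s - 0| +
        Real.exp |ξ| * (M / (1 + R ^ 2)) * |s - 0|) atTop (𝓝 0) := by
      simpa using hlim0.add hlim0
    refine squeeze_zero (fun R => norm_nonneg _) (fun R => ?_) h11
    rw [hrect R]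
    refine (norm_sub_le _ _).trans ?_
    rw [norm_smul, norm_smul, Complex.norm_I, one_mul, one_mul]
    have h12 := hv1 (-R)
    have h13 : (-R) ^ 2 = R ^ 2 := by ring
    rw [h13] at h12
    exact add_le_add h12 (hv1 R)
  have hdiff := t0.sub t1
  exact sub_eq_zero.mp (tendsto_nhds_unique hdiff hz)

lemma fourier_bound {F : ℂ → ℂ} {M : ℝ} (hM : 0 ≤ M)
    (hF : DifferentiableOn ℂ F {t : ℂ | |t.im| < 1})
    (hb : ∀ t : ℂ, |t.im| ≤ 1 / 2 → ‖F t‖ ≤ M / (1 + t.re ^ 2)) (ξ : ℝ) :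
    ‖∫ x : ℝ, GG F ξ (x:ℂ)‖ ≤ Real.exp (-(|ξ| / 2)) * (M * Real.pi) := by
  obtain ⟨s, hs, hsξ⟩ : ∃ s : ℝ, |s| ≤ 1 / 2 ∧ ξ * s = -(|ξ| / 2) := by
    rcases le_total 0 ξ with h | h
    · exact ⟨-(1 / 2), by norm_num [abs_le], by rw [abs_of_nonneg h]; ring⟩
    · exact ⟨1 / 2, by norm_num [abs_le], by rw [abs_of_nonpos h]; ring⟩
  have h0 : ∫ x : ℝ, GG F ξ (x:ℂ) = ∫ x : ℝ, GG F ξ ((x:ℂ) + (0:ℝ) * I) := by
    congr 1
    ext x
    congr 1
    simp
  rw [h0, shift hM hF hb ξ hs]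
  have hg : Integrable fun x : ℝ => Real.exp (ξ * s) * M * (1 + x ^ 2)⁻¹ :=
    integrable_inv_one_add_sq.const_mul _
  have h1 := norm_integral_le_of_norm_le hg (Eventually.of_forall fun x =>
    show ‖GG F ξ ((x:ℂ) + s * I)‖ ≤ Real.exp (ξ * s) * M * (1 + x ^ 2)⁻¹ by
      refine (bound_pt hb hs).trans (le_of_eq ?_)
      rw [div_eq_mul_inv]
      ring)
  refine h1.trans (le_of_eq ?_)
  rw [integral_const_mul, integral_univ_inv_one_add_sq, hsξ]
  ring

/-- the substitution -/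
lemma subst_int (H : ℝ → ℂ) {z : ℝ} (hz : 0 < z) (c : ℝ) :
    ∫ x : ℝ, H ((6 * x + c) / z) = (z / 6 : ℝ) * ∫ t : ℝ, H t := by
  have e1 : ∀ x : ℝ, H ((6 * x + c) / z) = (fun y : ℝ => H (6 / z * y)) (x + c / 6) := by
    intro x
    change H _ = H _
    congr 1
    field_simp
  simp_rw [e1]
  rw [integral_add_right_eq_self (fun y : ℝ => H (6 / z * y)) (c / 6)]
  rw [Measure.integral_comp_mul_left H (6 / z)]
  rw [abs_of_pos (by positivity)]
  rw [Complex.real_smul]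
  congr 2
  field_simp

lemma summ_e : Summable fun n : ℤ => Real.exp (-((|(n:ℝ)| - 1) / 2)) := by
  have h1 : Summable fun n : ℕ => Real.exp (-(((n:ℝ) - 1) / 2)) := by
    have h2 : Summable fun n : ℕ => Real.exp (1 / 2) * Real.exp (-(1 / 2)) ^ n :=
      (summable_geometric_of_lt_one (Real.exp_pos _).le
        (by rw [Real.exp_lt_one_iff]; norm_num)).mul_left _
    refine h2.congr fun n => ?_
    rw [← Real.exp_nat_mul, ← Real.exp_add]
    congr 1
    ring
  refine summable_int_iff_summable_nat_and_neg.mpr ⟨?_, ?_⟩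
  · refine h1.congr fun n => ?_
    simp
  · refine h1.congr fun n => ?_
    simp

theorem thm : G_ST := by
  set S0 : ℝ := ∑' n : ℤ, Real.exp (-((|(n:ℝ)| - 1) / 2)) with hS0
  have hS00 : 0 ≤ S0 := tsum_nonneg fun n => (Real.exp_pos _).le
  refine ⟨2 / 3 * Real.pi * S0 + 1, by positivity, ?_⟩
  intro F M hM hF hb z hz c
  have hz0 : 0 < z := by linarith
  set f : ℝ → ℂ := fun x => F (((6 * x + c) / z : ℝ) : ℂ) with hf
  have hcont : Continuous f := by
    rw [hf]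
    refine hF.continuousOn.comp_continuous (by fun_prop) (fun x => ?_)
    change |((((6 * x + c) / z : ℝ) : ℂ)).im| < 1
    rw [Complex.ofReal_im]
    norm_num
  have hfb : ∀ x : ℝ, ‖f x‖ ≤ M / (1 + ((6 * x + c) / z) ^ 2) := by
    intro x
    have h1 := hb (((6 * x + c) / z : ℝ) : ℂ) (by rw [Complex.ofReal_im]; norm_num)
    rw [Complex.ofReal_re] at h1
    exact h1
  have hO : f =O[cocompact ℝ] fun x : ℝ => |x| ^ (-(2:ℝ)) := by
    refine Asymptotics.IsBigO.of_bound (M * z ^ 2) ?_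
    have hev : ∀ᶠ x : ℝ in cocompact ℝ, |(c:ℝ)| + 1 ≤ ‖x‖ :=
      (tendsto_norm_cocompact_atTop (E := ℝ)).eventually_ge_atTop _
    filter_upwards [hev] with x hx
    rw [Real.norm_eq_abs] at hx
    have hx0 : 0 < |x| := by
      have := abs_nonneg (c:ℝ)
      linarith
    have h1 : ‖(|x| ^ (-(2:ℝ)) : ℝ)‖ = 1 / x ^ 2 := by
      rw [Real.norm_eq_abs, abs_of_nonneg (Real.rpow_nonneg hx0.le _), Real.rpow_neg hx0.le]
      norm_num
    rw [h1]
    refine (hfb x).trans ?_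
    have h2 : |x| ≤ |6 * x + c| := by
      have h3 : |6 * x| ≤ |6 * x + c| + |(c:ℝ)| := by
        have := abs_sub (6 * x + c) (c:ℝ)
        simpa using this
      rw [abs_mul] at h3
      norm_num at h3
      linarith
    have h4 : x ^ 2 ≤ (6 * x + c) ^ 2 := sq_le_sq.mpr h2
    have hx2 : 0 < x ^ 2 := by
      rw [← sq_abs]; positivity
    have h5 : x ^ 2 / z ^ 2 ≤ 1 + ((6 * x + c) / z) ^ 2 := by
      rw [div_pow]
      have : x ^ 2 / z ^ 2 ≤ (6 * x + c) ^ 2 / z ^ 2 := by gcongr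
      linarith
    calc M / (1 + ((6 * x + c) / z) ^ 2) ≤ M / (x ^ 2 / z ^ 2) := by gcongr
      _ = M * z ^ 2 * (1 / x ^ 2) := by field_simp
  -- Fourier transform
  have hFour : ∀ n : ℤ, ‖FourierTransform.fourier f (n:ℝ)‖ ≤
      z / 6 * (Real.exp (-(Real.pi * |(n:ℝ)| * z / 6)) * (M * Real.pi)) := by
    intro n
    set ξ : ℝ := 2 * Real.pi * n * z / 6 with hξ
    have e1 : FourierTransform.fourier f (n:ℝ) = cexp (2 * Real.pi * n * c / 6 * I) *
        ((z / 6 : ℝ) * ∫ t : ℝ, GG F ξ (t:ℂ)) := by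
      rw [Real.fourier_real_eq_integral_exp_smul]
      rw [← subst_int (fun t : ℝ => GG F ξ (t:ℂ)) hz0 (c:ℝ), ← integral_const_mul]
      congr 1
      ext x
      simp only [GG, hf, smul_eq_mul]
      rw [← mul_assoc, ← Complex.exp_add]
      congr 2
      rw [hξ]
      push_cast
      have hzc : (z:ℂ) ≠ 0 := by exact_mod_cast hz0.ne'
      field_simp
      ring
    rw [e1, norm_mul, norm_mul]
    have e2 : ‖cexp (2 * Real.pi * n * c / 6 * I)‖ = 1 := by
      have : (2 * (Real.pi:ℂ) * n * c / 6 * I) = ((2 * Real.pi * n * c / 6 : ℝ) : ℂ) * I := by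
        push_cast; ring
      rw [this, Complex.norm_exp_ofReal_mul_I]
    rw [e2, one_mul, Complex.norm_real, Real.norm_eq_abs, abs_of_pos (by positivity)]
    refine mul_le_mul_of_nonneg_left ?_ (by positivity)
    refine (fourier_bound hM hF hb ξ).trans (le_of_eq ?_)
    congr 2
    rw [hξ]
    have : |2 * Real.pi * (n:ℝ) * z / 6| = 2 * Real.pi * |(n:ℝ)| * z / 6 := by
      rw [abs_div, abs_mul, abs_mul, abs_mul, abs_of_pos Real.pi_pos, abs_of_pos hz0]
      norm_num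
    rw [this]
    ring
  have hFour2 : ∀ n : ℤ, n ≠ 0 → ‖FourierTransform.fourier f (n:ℝ)‖ ≤
      z / 6 * (M * Real.pi) * Real.exp (-(z / 2)) * Real.exp (-((|(n:ℝ)| - 1) / 2)) := by
    intro n hn
    refine (hFour n).trans ?_
    have hn1 : (1:ℝ) ≤ |(n:ℝ)| := by
      have : (1:ℤ) ≤ |n| := Int.one_le_abs hn
      exact_mod_cast this
    have h1 : Real.exp (-(Real.pi * |(n:ℝ)| * z / 6)) ≤
        Real.exp (-(z / 2)) * Real.exp (-((|(n:ℝ)| - 1) / 2)) := by
      rw [← Real.exp_add]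
      apply Real.exp_le_exp.mpr
      have h2 : 3 * (|(n:ℝ)| * z) ≤ Real.pi * (|(n:ℝ)| * z) := by
        have h3 : 0 ≤ |(n:ℝ)| * z := by positivity
        exact mul_le_mul_of_nonneg_right Real.pi_gt_three.le h3
      have h4 : 0 ≤ (|(n:ℝ)| - 1) * (z - 1) := mul_nonneg (by linarith) (by linarith)
      nlinarith
    have h5 : 0 ≤ z / 6 := by positivity
    have h6 : 0 ≤ M * Real.pi := by positivity
    calc z / 6 * (Real.exp (-(Real.pi * |(n:ℝ)| * z / 6)) * (M * Real.pi))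
        ≤ z / 6 * ((Real.exp (-(z / 2)) * Real.exp (-((|(n:ℝ)| - 1) / 2))) * (M * Real.pi)) := by
          gcongr
      _ = _ := by ring
  have hsumF : Summable fun n : ℤ => FourierTransform.fourier f (n:ℝ) := by
    refine Summable.of_norm_bounded_eventually
      (summ_e.mul_left (z / 6 * (M * Real.pi) * Real.exp (-(z / 2)))) ?_
    filter_upwards [eventually_cofinite_ne (0:ℤ)] with n hn
    exact hFour2 n hn
  have hP := Real.tsum_eq_tsum_fourier_of_rpow_decay_of_summable hcont (b := 2) (by norm_num) hO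
    hsumF 0
  have hterm : ∀ j : ℤ, F ((6 * (j:ℂ) + c) / z) = f (0 + j) := by
    intro j
    simp only [hf]
    congr 1
    push_cast
    ring
  have hsumf : Summable fun j : ℤ => f (0 + j) := by
    have h1 := summable_of_isBigO (Real.summable_abs_int_rpow (b := 2) (by norm_num))
      (hO.comp_tendsto Int.tendsto_coe_cofinite)
    refine h1.congr fun j => ?_
    simp
  refine ⟨?_, ?_⟩
  · simp_rw [hterm]
    exact hsumf
  · simp_rw [hterm]
    rw [hP]
    have h0 : ∀ n : ℤ, FourierTransform.fourier f (n:ℝ) * fourier n ((0:ℝ) : UnitAddCircle) =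
        FourierTransform.fourier f (n:ℝ) := by
      intro n
      simp
    simp_rw [h0]
    have hF0 : FourierTransform.fourier f ((0:ℤ):ℝ) = z / 6 * ∫ t : ℝ, F (t:ℂ) := by
      rw [Real.fourier_real_eq_integral_exp_smul]
      have h1 := subst_int (fun t : ℝ => F (t:ℂ)) hz0 (c:ℝ)
      have h2 : ((z / 6 : ℝ) : ℂ) = (z:ℂ) / 6 := by push_cast; ring
      rw [h2] at h1
      rw [← h1]
      congr 1
      ext x
      simp [hf]
    rw [hsumF.tsum_eq_add_tsum_ite 0, hF0, add_sub_cancel_left]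
    have hbd : ‖∑' n : ℤ, (if n = 0 then 0 else FourierTransform.fourier f (n:ℝ))‖ ≤
        z / 6 * (M * Real.pi) * Real.exp (-(z / 2)) * S0 := by
      rw [hS0, ← tsum_mul_left]
      refine tsum_of_norm_bounded
        (summ_e.mul_left (z / 6 * (M * Real.pi) * Real.exp (-(z / 2)))).hasSum (fun n => ?_)
      split_ifs with hn
      · rw [norm_zero]
        have h5 : 0 ≤ z / 6 := by positivity
        have h6 : 0 ≤ M * Real.pi := by positivity
        positivity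
      · exact hFour2 n hn
    refine hbd.trans ?_
    have h7 : z * Real.exp (-(z / 2)) ≤ 4 * Real.exp (-(z / 4)) := by
      have h8 : z / 4 ≤ Real.exp (z / 4) := by
        have := Real.add_one_le_exp (z / 4)
        linarith
      have h9 : Real.exp (-(z / 2)) = Real.exp (-(z / 4)) * Real.exp (-(z / 4)) := by
        rw [← Real.exp_add]; congr 1; ring
      have h10 : Real.exp (z / 4) * Real.exp (-(z / 4)) = 1 := by
        rw [← Real.exp_add]; simp
      have h11 : 0 < Real.exp (-(z / 4)) := Real.exp_pos _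
      rw [h9]
      calc z * (Real.exp (-(z / 4)) * Real.exp (-(z / 4)))
          = 4 * ((z / 4) * Real.exp (-(z / 4))) * Real.exp (-(z / 4)) := by ring
        _ ≤ 4 * (Real.exp (z / 4) * Real.exp (-(z / 4))) * Real.exp (-(z / 4)) := by gcongr
        _ = 4 * Real.exp (-(z / 4)) := by rw [h10]; ring
    have h12 : 0 < Real.exp (-(z / 4)) := Real.exp_pos _
    have hpi := Real.pi_pos
    calc z / 6 * (M * Real.pi) * Real.exp (-(z / 2)) * S0
        = (z * Real.exp (-(z / 2))) * (M * Real.pi / 6 * S0) := by ring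
      _ ≤ (4 * Real.exp (-(z / 4))) * (M * Real.pi / 6 * S0) := by gcongr
      _ = (2 / 3 * Real.pi * S0) * M * Real.exp (-(z / 4)) := by ring
      _ ≤ (2 / 3 * Real.pi * S0 + 1) * M * Real.exp (-(z / 4)) := by
          gcongr
          linarith

end EC237.ZE.PkST
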